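import Mathlib

/-!
# A bound for the degree of a function with few simple values (not a result)

An elementary substitute for the theorem of Mason and Stothers on curves: `Φ(T, Z)` is a polynomial of
degree at most `n` in `Z` and `d` in `T`, coprime to `∂Φ/∂T`; if for many `c` the roots of `Φ(T, c)` outside a
set of `β` elements are multiple, `d` is bounded in terms of `n` and `β`.
-/

set_option autoImplicit false

open Polynomial Finset

namespace Pool.Agent.Helper47.FC

/-- the derivative with respect to `T` on `R[T][Z]` -/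
noncomputable def dT {R : Type*} [CommRing R] (Φ : R[X][X]) : R[X][X] :=
  Φ.sum fun i a => monomial i (derivative a)

lemma dT_coeff {R : Type*} [CommRing R] (Φ : R[X][X]) (i : ℕ) :
    (dT Φ).coeff i = derivative (Φ.coeff i) := by
  classical
  unfold dT
  rw [Polynomial.sum_def, finsetSum_coeff]
  simp only [coeff_monomial]
  rw [Finset.sum_ite_eq']
  split_ifs with h
  · rfl
  · rw [notMem_support_iff.1 h, map_zero]

lemma dT_natDegree_le {R : Type*} [CommRing R] (Φ : R[X][X]) : (dT Φ).natDegree ≤ Φ.natDegree := by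
  rw [natDegree_le_iff_coeff_eq_zero]
  intro N hN
  rw [dT_coeff, coeff_eq_zero_of_natDegree_lt hN, map_zero]

lemma dT_eval {R : Type*} [CommRing R] (Φ : R[X][X]) (c : R) :
    (dT Φ).eval (C c) = derivative (Φ.eval (C c)) := by
  rw [eval_eq_sum_range' (n := Φ.natDegree + 1) (Nat.lt_succ_of_le (dT_natDegree_le Φ)),
    eval_eq_sum_range' (n := Φ.natDegree + 1) (Nat.lt_succ_self _), derivative_sum]
  refine Finset.sum_congr rfl fun i _ => ?_
  rw [dT_coeff, ← C_pow, derivative_mul, derivative_C, mul_zero, add_zero]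

/-- the multiplicities -/
lemma mult_le {E : Type*} [Field E] {P Q S U V : E[X]} (hS : S ≠ 0) (h : S = U * P + V * Q)
    (hQ : Q = derivative P) (a : E) : P.rootMultiplicity a - 1 ≤ S.rootMultiplicity a := by
  have hP : P ≠ 0 := by
    rintro rfl
    apply hS
    rw [h, hQ, derivative_zero, mul_zero, mul_zero, add_zero]
  rw [le_rootMultiplicity_iff hS, h]
  obtain ⟨R, hR⟩ := pow_rootMultiplicity_dvd P a
  set m := P.rootMultiplicity a with hm
  rcases Nat.eq_zero_or_pos m with h0 | h0
  · rw [h0]
    simp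
  · obtain ⟨k, hk⟩ : ∃ k, m = k + 1 := ⟨m - 1, by omega⟩
    have e1 : (X - C a) ^ (m - 1) ∣ P := (pow_dvd_pow _ (Nat.sub_le _ _)).trans ⟨R, hR⟩
    have e2 : (X - C a) ^ (m - 1) ∣ Q := by
      rw [hQ, hR, hk, Nat.add_sub_cancel]
      rw [derivative_mul, derivative_X_sub_C_pow, Nat.add_sub_cancel]
      refine dvd_add ?_ ?_
      · exact (Dvd.intro_left _ rfl).mul_right _
      · exact (pow_dvd_pow _ (Nat.le_succ k)).mul_right _
    exact dvd_add (e1.mul_left _) (e2.mul_left _)

/-- **The degree bound.** -/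
theorem deg_bound {E : Type*} [Field E] [IsAlgClosed E] {n β d : ℕ} {Φ : E[X][X]}
    (hn : 0 < n) (hZ : Φ.natDegree ≤ n) (hprim : ∀ a : E, Φ.map (evalRingHom a) ≠ 0)
    (hd : ∀ i, (Φ.coeff i).natDegree ≤ d) (hd' : ∃ i, (Φ.coeff i).coeff d ≠ 0)
    {S : E[X]} (hS : S ≠ 0) (hSd : S.natDegree ≤ 2 * n * d) {U V : E[X][X]}
    (hUV : C S = U * Φ + V * dT Φ) (c : Fin (4 * n ^ 2 + n + 1) → E)
    (hc : Function.Injective c) (Bad : Finset E) (hB : Bad.card ≤ β)
    (hmul : ∀ j, ∀ a ∉ Bad, (Φ.eval (C (c j))).rootMultiplicity a ≠ 1) :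
    d ≤ (4 * n ^ 2 + 1) * β := by
  classical
  set P : Fin (4 * n ^ 2 + n + 1) → E[X] := fun j => Φ.eval (C (c j)) with hP
  have hSj : ∀ j, S = U.eval (C (c j)) * P j + V.eval (C (c j)) * derivative (P j) := by
    intro j
    have h := congrArg (fun Q : E[X][X] => Q.eval (C (c j))) hUV
    simp only [eval_C, eval_add, eval_mul, dT_eval] at h
    exact h
  have hP0 : ∀ j, P j ≠ 0 := by
    intro j h
    apply hS
    rw [hSj j, h, derivative_zero, mul_zero, mul_zero, add_zero]
  have hmult : ∀ j a, (P j).rootMultiplicity a - 1 ≤ S.rootMultiplicity a :=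
    fun j a => mult_le hS (hSj j) rfl a
  -- the leading coefficient with respect to `T`
  set ℓ : E[X] := ∑ i ∈ range (n + 1), C ((Φ.coeff i).coeff d) * X ^ i with hℓ
  have hℓc : ∀ i, i ≤ n → ℓ.coeff i = (Φ.coeff i).coeff d := by
    intro i hi
    rw [hℓ, finsetSum_coeff]
    simp only [coeff_C_mul, coeff_X_pow, mul_ite, mul_one, mul_zero]
    rw [Finset.sum_ite_eq, if_pos (mem_range.2 (Nat.lt_succ_of_le hi))]
  have hℓ0 : ℓ ≠ 0 := by
    obtain ⟨i, hi⟩ := hd'
    have hin : i ≤ n := by
      by_contra hcon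
      apply hi
      rw [coeff_eq_zero_of_natDegree_lt (lt_of_le_of_lt hZ (by omega)), coeff_zero]
    intro h
    apply hi
    rw [← hℓc i hin, h, coeff_zero]
  have hℓd : ℓ.natDegree ≤ n := by
    rw [hℓ]
    refine natDegree_sum_le_of_forall_le _ _ fun i hi => ?_
    exact (natDegree_C_mul_X_pow_le _ _).trans (Nat.lt_succ_iff.1 (mem_range.1 hi))
  have hPd : ∀ j, (P j).coeff d = ℓ.eval (c j) := by
    intro j
    rw [hP, hℓ, eval_finsetSum]
    change (Φ.eval (C (c j))).coeff d = _
    rw [eval_eq_sum_range' (n := n + 1) (Nat.lt_succ_of_le hZ), finsetSum_coeff]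
    refine Finset.sum_congr rfl fun i _ => ?_
    rw [← C_pow, coeff_mul_C, eval_mul, eval_C, eval_pow, eval_X]
  have hPle : ∀ j, (P j).natDegree ≤ d := by
    intro j
    change (Φ.eval (C (c j))).natDegree ≤ d
    rw [eval_eq_sum_range' (n := n + 1) (Nat.lt_succ_of_le hZ)]
    refine natDegree_sum_le_of_forall_le _ _ fun i _ => ?_
    rw [← C_pow]
    exact (natDegree_mul_C_le _ _).trans (hd i)
  -- the indices with a polynomial of degree `d`
  set J : Finset (Fin (4 * n ^ 2 + n + 1)) := univ.filter fun j => ℓ.eval (c j) ≠ 0 with hJ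
  have hJc : 4 * n ^ 2 + 1 ≤ J.card := by
    have h1 : (univ.filter fun j => ¬ ℓ.eval (c j) ≠ 0).card ≤ n := by
      have h2 : ((univ.filter fun j => ¬ ℓ.eval (c j) ≠ 0).image c) ⊆ ℓ.roots.toFinset := by
        intro x hx
        obtain ⟨j, hj, rfl⟩ := mem_image.1 hx
        rw [mem_filter, not_not] at hj
        rw [Multiset.mem_toFinset, mem_roots hℓ0]
        exact hj.2
      have h3 := card_le_card h2
      rw [card_image_of_injective _ hc] at h3
      exact h3.trans ((Multiset.toFinset_card_le _).trans ((card_roots' _).trans hℓd))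
    have h2 := Finset.card_filter_add_card_filter_not (s := (univ : Finset (Fin (4 * n ^ 2 + n + 1))))
      (fun j => ℓ.eval (c j) ≠ 0)
    rw [card_univ, Fintype.card_fin, ← hJ] at h2
    omega
  have hJd : ∀ j ∈ J, (P j).natDegree = d := by
    intro j hj
    refine le_antisymm (hPle j) (le_natDegree_of_ne_zero ?_)
    rw [hPd]
    exact (mem_filter.1 hj).2
  -- the points
  set A : Finset E := univ.biUnion fun j => (P j).roots.toFinset with hA
  have hsum : ∀ j, ∑ a ∈ A, (P j).rootMultiplicity a = (P j).natDegree := by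
    intro j
    rw [← IsAlgClosed.card_roots_eq_natDegree (p := P j)]
    rw [← Multiset.toFinset_sum_count_eq (P j).roots]
    simp only [count_roots]
    symm
    refine Finset.sum_subset (fun a ha => mem_biUnion.2 ⟨j, mem_univ _, ha⟩) fun a _ ha => ?_
    rw [Multiset.mem_toFinset, mem_roots (hP0 j)] at ha
    exact rootMultiplicity_eq_zero ha
  have hsumS : ∑ a ∈ A, S.rootMultiplicity a ≤ S.natDegree := by
    rw [← IsAlgClosed.card_roots_eq_natDegree (p := S), ← Multiset.toFinset_sum_count_eq S.roots]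
    simp only [count_roots]
    have h1 : ∑ a ∈ A, S.rootMultiplicity a = ∑ a ∈ A ∩ S.roots.toFinset, S.rootMultiplicity a := by
      symm
      refine Finset.sum_subset inter_subset_left fun a haA ha => ?_
      have h2 : a ∉ S.roots.toFinset := fun h => ha (mem_inter.2 ⟨haA, h⟩)
      rw [Multiset.mem_toFinset, mem_roots hS] at h2
      exact rootMultiplicity_eq_zero h2
    rw [h1]
    exact Finset.sum_le_sum_of_subset inter_subset_right
  have hfew : ∀ a, (J.filter fun j => (P j).eval a = 0).card ≤ n := by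
    intro a
    have h2 : ((J.filter fun j => (P j).eval a = 0).image c) ⊆
        (Φ.map (evalRingHom a)).roots.toFinset := by
      intro x hx
      obtain ⟨j, hj, rfl⟩ := mem_image.1 hx
      rw [mem_filter] at hj
      rw [Multiset.mem_toFinset, mem_roots (hprim a), IsRoot.def, eval_map]
      have h3 := hj.2
      change (Φ.eval (C (c j))).eval a = 0 at h3
      rw [← coe_evalRingHom a, ← eval₂_at_apply, coe_evalRingHom] at h3
      simpa using h3
    have h3 := card_le_card h2
    rw [card_image_of_injective _ hc] at h3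
    exact h3.trans ((Multiset.toFinset_card_le _).trans ((card_roots' _).trans
      (natDegree_map_le.trans hZ)))
  -- the lower bound for each index
  have hlow : ∀ j ∈ J, d ≤ 2 * ∑ a ∈ A, ((P j).rootMultiplicity a - 1) + β := by
    intro j hj
    have h1 : ∀ a ∈ A, (P j).rootMultiplicity a ≤
        2 * ((P j).rootMultiplicity a - 1) + (if a ∈ Bad then 1 else 0) := by
      intro a _
      split_ifs with h
      · omega
      · have := hmul j a h
        change (P j).rootMultiplicity a ≠ 1 at this
        omega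
    have h2 := Finset.sum_le_sum h1
    rw [hsum j, hJd j hj, Finset.sum_add_distrib, ← Finset.mul_sum] at h2
    have h3 : ∑ a ∈ A, (if a ∈ Bad then 1 else 0) ≤ β := by
      rw [← Finset.sum_filter, Finset.sum_const, smul_eq_mul, mul_one]
      exact (card_le_card (fun a ha => (mem_filter.1 ha).2)).trans hB
    omega
  -- the upper bound
  have hup : ∑ j ∈ J, ∑ a ∈ A, ((P j).rootMultiplicity a - 1) ≤ n * (2 * n * d) := by
    rw [Finset.sum_comm]
    have h1 : ∀ a ∈ A, ∑ j ∈ J, ((P j).rootMultiplicity a - 1) ≤ n * S.rootMultiplicity a := by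
      intro a _
      have h2 : ∑ j ∈ J, ((P j).rootMultiplicity a - 1) =
          ∑ j ∈ J.filter (fun j => (P j).eval a = 0), ((P j).rootMultiplicity a - 1) := by
        symm
        refine Finset.sum_subset (filter_subset _ _) fun j hj hj' => ?_
        have h3 : (P j).eval a ≠ 0 := fun h => hj' (mem_filter.2 ⟨hj, h⟩)
        rw [rootMultiplicity_eq_zero h3, Nat.zero_sub]
      rw [h2]
      refine (Finset.sum_le_card_nsmul _ _ _ fun j _ => hmult j a).trans ?_
      rw [smul_eq_mul]
      exact Nat.mul_le_mul_right _ (hfew a)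
    refine (Finset.sum_le_sum h1).trans ?_
    rw [← Finset.mul_sum]
    exact Nat.mul_le_mul_left _ (hsumS.trans hSd)
  have hfin : J.card * d ≤ 2 * (n * (2 * n * d)) + J.card * β := by
    have h1 := Finset.sum_le_sum hlow
    rw [Finset.sum_const, smul_eq_mul, Finset.sum_add_distrib, ← Finset.mul_sum, Finset.sum_const,
      smul_eq_mul] at h1
    have h2 := Nat.mul_le_mul_left 2 hup
    omega
  by_contra hcon
  push Not at hcon
  have h1 : J.card * β + (4 * n ^ 2) * d < J.card * d := by
    obtain ⟨k, hk⟩ : ∃ k, J.card = 4 * n ^ 2 + 1 + k := ⟨J.card - (4 * n ^ 2 + 1), by omega⟩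
    have hβ : β ≤ d := by
      refine le_trans ?_ hcon.le
      nlinarith [Nat.zero_le (4 * n ^ 2 * β)]
    rw [hk]
    nlinarith [Nat.mul_le_mul_left k hβ]
  nlinarith

end Pool.Agent.Helper47.FC
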