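import Pool.Agent.Helper47.FC.Deg

/-!
# The resultant of a polynomial and its derivative with respect to `T` (not a result)
-/

set_option autoImplicit false

open Polynomial Finset

namespace Pool.Agent.Helper47.FC

/-- the degree of a resultant -/
lemma natDegree_resultant_le {k : Type*} [CommRing k] {d : ℕ} (f g : k[X][X]) (m n : ℕ)
    (hf : ∀ i, (f.coeff i).natDegree ≤ d) (hg : ∀ i, (g.coeff i).natDegree ≤ d) :
    (resultant f g m n).natDegree ≤ (m + n) * d := by
  unfold Polynomial.resultant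
  rw [Matrix.det_apply]
  refine natDegree_sum_le_of_forall_le _ _ fun σ _ => ?_
  refine (natDegree_smul_le _ _).trans ?_
  refine (natDegree_prod_le _ _).trans ?_
  have h : ∀ i ∈ (univ : Finset (Fin (m + n))), (sylvester f g m n (σ i) i).natDegree ≤ d := by
    intro i _
    unfold sylvester
    rw [Matrix.of_apply]
    induction i using Fin.addCases with
    | left j =>
      rw [Fin.addCases_left]
      split_ifs
      · exact hg _
      · simp
    | right j =>
      rw [Fin.addCases_right]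
      split_ifs
      · exact hf _
      · simp
  refine (Finset.sum_le_card_nsmul _ _ _ h).trans ?_
  rw [card_univ, Fintype.card_fin, smul_eq_mul]

/-- A nonzero polynomial of degree at most `2 n d` in the ideal of `Φ` and `∂Φ/∂T`. -/
theorem exists_res {k : Type*} [Field k] {n d : ℕ} {Φ : k[X][X]} (hZ : Φ.natDegree ≤ n)
    (hZ0 : Φ.natDegree ≠ 0) (hd : ∀ i, (Φ.coeff i).natDegree ≤ d)
    (hcop : IsCoprime (Φ.map (algebraMap k[X] (RatFunc k)))
      ((dT Φ).map (algebraMap k[X] (RatFunc k)))) :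
    ∃ S : k[X], S ≠ 0 ∧ S.natDegree ≤ 2 * n * d ∧ ∃ U V : k[X][X], C S = U * Φ + V * dT Φ := by
  have hinj : Function.Injective (algebraMap k[X] (RatFunc k)) := IsFractionRing.injective _ _
  obtain ⟨p, q, -, -, h⟩ := exists_mul_add_mul_eq_C_resultant Φ (dT Φ) le_rfl le_rfl
    (Or.inl hZ0)
  refine ⟨resultant Φ (dT Φ), ?_, ?_, p, q, ?_⟩
  · intro h0
    have h1 : resultant (Φ.map (algebraMap k[X] (RatFunc k)))
        ((dT Φ).map (algebraMap k[X] (RatFunc k))) = 0 := by
      rw [natDegree_map_eq_of_injective hinj, natDegree_map_eq_of_injective hinj,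
        resultant_map_map, h0, map_zero]
    rw [resultant_eq_zero_iff] at h1
    exact h1.2 hcop
  · refine (natDegree_resultant_le (d := d) _ _ _ _ hd fun i => ?_).trans ?_
    · rw [dT_coeff]
      exact (natDegree_derivative_le _).trans ((Nat.sub_le _ _).trans (hd i))
    · have h1 := dT_natDegree_le Φ
      exact Nat.mul_le_mul_right _ (by omega)
  · rw [← h]
    ring

/-- the same for primitive irreducible polynomials -/
theorem exists_res_of_irreducible {k : Type*} [Field k] {n d : ℕ} {Φ : k[X][X]}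
    (hZ : Φ.natDegree ≤ n) (hd : ∀ i, (Φ.coeff i).natDegree ≤ d) (hprim : Φ.IsPrimitive)
    (hirr : Irreducible (Φ.map (algebraMap k[X] (RatFunc k)))) (hT : dT Φ ≠ 0) :
    ∃ S : k[X], S ≠ 0 ∧ S.natDegree ≤ 2 * n * d ∧ ∃ U V : k[X][X], C S = U * Φ + V * dT Φ := by
  have hinj : Function.Injective (algebraMap k[X] (RatFunc k)) := IsFractionRing.injective _ _
  have hZ0 : Φ.natDegree ≠ 0 := by
    have h1 := hirr.natDegree_pos
    rw [natDegree_map_eq_of_injective hinj] at h1
    exact h1.ne'
  refine exists_res hZ hZ0 hd ?_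
  rw [hirr.coprime_iff_not_dvd]
  intro hdvd
  have h1 : Φ ∣ dT Φ :=
    Polynomial.IsPrimitive.dvd_of_fraction_map_dvd_fraction_map hprim hdvd
  obtain ⟨R, hR⟩ := h1
  have hΦ0 : Φ ≠ 0 := hprim.ne_zero
  have hR0 : R ≠ 0 := by
    rintro rfl
    exact hT (by rw [hR, mul_zero])
  have hRd : R.natDegree = 0 := by
    have h2 := dT_natDegree_le Φ
    rw [hR, natDegree_mul hΦ0 hR0] at h2
    omega
  obtain ⟨u, rfl⟩ := natDegree_eq_zero.1 hRd
  have hu : u ≠ 0 := fun h => hR0 (by rw [h, C_0])
  have h3 : ∀ i, derivative (Φ.coeff i) = Φ.coeff i * u := by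
    intro i
    rw [← dT_coeff, hR, coeff_mul_C]
  have h4 : (Φ.coeff Φ.natDegree).natDegree ≤ (derivative (Φ.coeff Φ.natDegree)).natDegree := by
    rw [h3, natDegree_mul (p := Φ.coeff Φ.natDegree) (leadingCoeff_ne_zero.2 hΦ0) hu]
    exact Nat.le_add_right _ _
  have h5 : derivative (Φ.coeff Φ.natDegree) ≠ 0 := by
    rw [h3]
    exact mul_ne_zero (a := Φ.coeff Φ.natDegree) (leadingCoeff_ne_zero.2 hΦ0) hu
  have h6 : (Φ.coeff Φ.natDegree).natDegree ≠ 0 := by
    intro h
    apply h5
    obtain ⟨c, hc⟩ := natDegree_eq_zero.1 h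
    rw [← hc, derivative_C]
  have h7 := natDegree_derivative_lt h6
  omega

end Pool.Agent.Helper47.FC
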